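import Pool.Agent.Helper9.SK.St

/-!
# Project SK, module BES: Bessel
-/

set_option autoImplicit false

noncomputable section

namespace Pool.Agent.Helper79.SK

open Finset ArithmeticFunction MeasureTheory
open Pool.Agent.Helper48.BK (ex th Pz Vz lz gs Sx Apx)
open Pool.Agent.Helper9.SK
open ComplexConjugate

private theorem ex_cont (a : ℝ) : Continuous fun α : ℝ => ex (a * α) := by
  unfold ex
  fun_prop

private theorem ex_conj (t : ℝ) : conj (ex t) = ex (-t) := by
  unfold ex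
  rw [← Complex.exp_conj]
  congr 1
  simp only [map_mul, Complex.conj_ofReal, Complex.conj_I, map_ofNat]
  push_cast
  ring

private theorem ex_add (s t : ℝ) : ex (s + t) = ex s * ex t := by
  unfold ex
  rw [← Complex.exp_add]
  congr 1
  push_cast
  ring

private theorem int_ex (n : ℤ) : ∫ α in (0 : ℝ)..1, ex ((n : ℝ) * α) = if n = 0 then 1 else 0 := by
  by_cases hn : n = 0
  · subst hn
    simp [ex]
  · rw [if_neg hn]
    have hc : (2 * Real.pi * n * Complex.I : ℂ) ≠ 0 := by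
      refine mul_ne_zero (mul_ne_zero (mul_ne_zero two_ne_zero ?_) ?_) Complex.I_ne_zero
      · exact_mod_cast Real.pi_ne_zero
      · exact_mod_cast hn
    have h1 : (fun α : ℝ => ex ((n : ℝ) * α)) =
        fun α : ℝ => Complex.exp ((2 * Real.pi * n * Complex.I : ℂ) * α) := by
      funext α
      unfold ex
      congr 1
      push_cast
      ring
    rw [h1, integral_exp_mul_complex hc]
    have h2 : Complex.exp ((2 * Real.pi * n * Complex.I : ℂ) * ((1 : ℝ) : ℂ)) = 1 := by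
      rw [Complex.exp_eq_one_iff]
      exact ⟨n, by push_cast; ring⟩
    rw [h2]
    simp

private theorem pars_fin (K : Finset ℤ) (c : ℤ → ℝ) :
    ∫ α in (0 : ℝ)..1, ‖∑ k ∈ K, (c k : ℂ) * ex ((k : ℝ) * α)‖ ^ 2 = ∑ k ∈ K, c k ^ 2 := by
  have h1 : ∀ α : ℝ, ((‖∑ k ∈ K, (c k : ℂ) * ex ((k : ℝ) * α)‖ ^ 2 : ℝ) : ℂ) =
      ∑ k ∈ K, ∑ l ∈ K, ((c k : ℂ) * c l) * ex (((k - l : ℤ) : ℝ) * α) := by
    intro α
    have h2 : ((‖∑ k ∈ K, (c k : ℂ) * ex ((k : ℝ) * α)‖ ^ 2 : ℝ) : ℂ) =
        (∑ k ∈ K, (c k : ℂ) * ex ((k : ℝ) * α)) * conj (∑ k ∈ K, (c k : ℂ) * ex ((k : ℝ) * α)) := by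
      rw [Complex.mul_conj, Complex.normSq_eq_norm_sq]
    rw [h2, map_sum, Finset.sum_mul_sum]
    refine Finset.sum_congr rfl fun k _ => Finset.sum_congr rfl fun l _ => ?_
    rw [map_mul, Complex.conj_ofReal, ex_conj]
    have h3 : ((k - l : ℤ) : ℝ) * α = (k : ℝ) * α + -((l : ℝ) * α) := by
      push_cast
      ring
    rw [h3, ex_add]
    ring
  have h4 : ((∫ α in (0 : ℝ)..1, ‖∑ k ∈ K, (c k : ℂ) * ex ((k : ℝ) * α)‖ ^ 2 : ℝ) : ℂ) =
      ((∑ k ∈ K, c k ^ 2 : ℝ) : ℂ) := by
    rw [← intervalIntegral.integral_ofReal]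
    simp only [h1]
    rw [intervalIntegral.integral_finsetSum]
    · have h5 : ∀ k ∈ K, (∫ α in (0 : ℝ)..1,
          ∑ l ∈ K, ((c k : ℂ) * c l) * ex (((k - l : ℤ) : ℝ) * α)) = (c k : ℂ) ^ 2 := by
        intro k hk
        rw [intervalIntegral.integral_finsetSum]
        · simp only [intervalIntegral.integral_const_mul, int_ex]
          rw [Finset.sum_eq_single k]
          · rw [if_pos (sub_self k)]
            ring
          · intro l _ hl
            rw [if_neg (sub_ne_zero.2 (Ne.symm hl)), mul_zero]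
          · intro h
            exact absurd hk h
        · intro l _
          exact (continuous_const.mul (ex_cont _)).intervalIntegrable _ _
      rw [Finset.sum_congr rfl h5]
      push_cast
      rfl
    · intro k _
      refine Continuous.intervalIntegrable ?_ _ _
      exact continuous_finsetSum _ fun l _ => continuous_const.mul (ex_cont _)
  exact_mod_cast h4

/-- **SK MODULE BES.** -/
theorem hBES : StBes := by
  intro N V D I w s hD
  classical
  -- the frequencies
  set T : Finset (ℕ × (ℕ × ℕ)) := Ioc 0 N ×ˢ I with hT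
  set g : ℕ × (ℕ × ℕ) → ℤ := fun x => (x.1 : ℤ) - s x.2 with hg
  set c : ℤ → ℝ := fun k => ∑ x ∈ T with g x = k, D x.1 * w x.2 with hc
  set K : Finset ℤ := T.image g ∪ (Icc 1 V).image (fun v : ℕ => (v : ℤ)) with hK
  have hmaps : ∀ x ∈ T, g x ∈ K := fun x hx =>
    Finset.mem_union_left _ (Finset.mem_image_of_mem g hx)
  -- the integrand
  have h1 : ∀ α : ℝ, ‖Sx D N α‖ ^ 2 * ‖∑ i ∈ I, (w i : ℂ) * ex ((s i : ℝ) * α)‖ ^ 2 =
      ‖∑ k ∈ K, (c k : ℂ) * ex ((k : ℝ) * α)‖ ^ 2 := by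
    intro α
    have h2 : ‖∑ i ∈ I, (w i : ℂ) * ex ((s i : ℝ) * α)‖ =
        ‖conj (∑ i ∈ I, (w i : ℂ) * ex ((s i : ℝ) * α))‖ := by
      rw [RCLike.norm_conj]
    rw [h2, ← mul_pow, ← norm_mul]
    congr 2
    rw [map_sum]
    unfold Sx
    rw [Finset.sum_mul_sum, ← Finset.sum_product']
    have h3 : ∀ x ∈ Ioc 0 N ×ˢ I, (D x.1 : ℂ) * ex ((x.1 : ℝ) * α) *
        conj ((w x.2 : ℂ) * ex ((s x.2 : ℝ) * α)) =
        ((D x.1 * w x.2 : ℝ) : ℂ) * ex (((g x : ℤ) : ℝ) * α) := by
      intro x _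
      rw [map_mul, Complex.conj_ofReal, ex_conj]
      have h4 : ((g x : ℤ) : ℝ) * α = (x.1 : ℝ) * α + -((s x.2 : ℝ) * α) := by
        rw [hg]
        push_cast
        ring
      rw [h4, ex_add]
      push_cast
      ring
    rw [Finset.sum_congr rfl h3, ← Finset.sum_fiberwise_of_maps_to (t := K) (g := g) hmaps]
    refine Finset.sum_congr rfl fun k _ => ?_
    rw [hc]
    push_cast
    rw [Finset.sum_mul]
    refine Finset.sum_congr rfl fun x hx => ?_
    rw [(Finset.mem_filter.1 hx).2]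
  have h5 : ∫ α in (0 : ℝ)..1, ‖Sx D N α‖ ^ 2 * ‖∑ i ∈ I, (w i : ℂ) * ex ((s i : ℝ) * α)‖ ^ 2 =
      ∑ k ∈ K, c k ^ 2 := by
    rw [← pars_fin K c]
    exact intervalIntegral.integral_congr fun α _ => h1 α
  rw [h5]
  -- the coefficients of the positive frequencies
  have h6 : ∀ v ∈ Icc 1 V, ∑ i ∈ I, w i * D (v + s i) = c (v : ℤ) := by
    intro v hv
    have hv1 : 1 ≤ v := (Finset.mem_Icc.1 hv).1
    rw [hc]
    simp only [Finset.sum_filter]
    rw [hT, Finset.sum_product_right]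
    refine Finset.sum_congr rfl fun i _ => ?_
    by_cases hN : v + s i ≤ N
    · rw [Finset.sum_eq_single (v + s i)]
      · rw [if_pos (by rw [hg]; push_cast; ring)]
        ring
      · intro m _ hm
        rw [if_neg]
        intro h
        apply hm
        rw [hg] at h
        have h7 : (m : ℤ) - s i = v := h
        omega
      · intro h
        exact absurd (Finset.mem_Ioc.2 ⟨by omega, hN⟩) h
    · rw [hD _ (by omega), mul_zero]
      symm
      refine Finset.sum_eq_zero fun m hm => ?_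
      rw [if_neg]
      intro h
      have h7 : (m : ℤ) - s i = v := h
      have := (Finset.mem_Ioc.1 hm).2
      omega
  rw [Finset.sum_congr rfl fun v hv => by rw [h6 v hv]]
  have h8 : ∑ v ∈ Icc 1 V, c (v : ℤ) ^ 2 = ∑ k ∈ (Icc 1 V).image (fun v : ℕ => (v : ℤ)), c k ^ 2 := by
    rw [Finset.sum_image]
    intro a _ b _ h
    have h9 : (a : ℤ) = (b : ℤ) := h
    exact_mod_cast h9
  rw [h8]
  exact Finset.sum_le_sum_of_subset_of_nonneg (Finset.subset_union_right)
    fun k _ _ => sq_nonneg _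

end Pool.Agent.Helper79.SK
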